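import Pool.Agent.H77.TlhB

namespace Pool.Agent.Results.MP_555fce_lc.Dense

open Pool.Agent.H77.Tlh

theorem result (E F : ℕ → ℕ → Prop) (hE : Tol Wce E) (hF : Tol Wce F) (h : LtL Wce E F) :
    ∃ G, Tol Wce G ∧ LtL Wce E G ∧ LtL Wce G F := dense hE hF h

end Pool.Agent.Results.MP_555fce_lc.Dense
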